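import Pool.Agent.U690.PL.FlwA

/-!
# Project CP, package FLW: the fundamental lemma with a super-exponential rate
-/

set_option autoImplicit false

open Finset

namespace Pool.Agent.U690.PL

open Pool.Agent.H442R2 Pool.Agent.H442R2.KF Pool.Agent.W23.DC
open Pool.Agent.W23.PL
open Pool.Agent.Helper112.LP Pool.Agent.Helper112.LP.Kbh Pool.Agent.Helper112.LP.Kba

theorem num {J : ℕ} (P : Finset ℕ) (hP : ∀ p ∈ P, ∃ i : Fin J, p ∈ Gj ((i : ℕ) + 1)) (b0 : ℕ)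
    (hb0 : Even b0) (hL : ∀ i : Fin J, ∑ l ∈ Pb P i, (1 : ℝ) / l ≤ 1) (S : ℝ)
    (hS : ∑ i : Fin J, 1 / ((bb b0 i + 1).factorial : ℝ) ≤ S) (hS1 : Real.exp 2 * S ≤ 1) :
    |∏ i : Fin J, bhA gg (bb b0 i) (Pb P i) - VV P| ≤ 3 * (Real.exp 2 * S) * VV P ∧
    |∑ k : Fin J, bhE gg (bb b0 k + 1) (Pb P k) *
      ∏ i ∈ univ.erase k, bhA gg (bb b0 i) (Pb P i)| ≤ 3 * (Real.exp 2 * S) * VV P := by
  have hbe : ∀ i : Fin J, Even (bb b0 i) := fun i => hb0.add (even_two_mul _)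
  have hsub : ∀ i : Fin J, Pb P i ⊆ Gj ((i : ℕ) + 1) := fun i => inter_subset_left
  have hPp : ∀ i : Fin J, ∀ l ∈ Pb P i, l.Prime := fun i l hl => (bh_Gj_mem (hsub i hl)).1
  set V : Fin J → ℝ := fun i => ∏ l ∈ Pb P i, (1 - gg l) with hVdef
  set Tr : Fin J → ℝ := fun i => bhA gg (bb b0 i) (Pb P i) with hTr
  set Er : Fin J → ℝ := fun i => bhE gg (bb b0 i + 1) (Pb P i) with hEr
  set v : ℝ := Real.exp (-2) with hv
  have hv0 : 0 < v := Real.exp_pos _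
  have hgb : ∀ i : Fin J, ∀ l ∈ Pb P i, 0 ≤ gg l ∧ gg l ≤ 1 := by
    intro i l hl
    have h := bh_inv_bd (hPp i l hl)
    unfold gg
    exact ⟨h.1, by linarith [h.2]⟩
  have hbonf : ∀ i, V i ≤ Tr i ∧ Tr i ≤ V i + Er i := by
    intro i
    have h := bh_bonf gg (Pb P i) (hgb i) (bb b0 i)
    rw [(hbe i).neg_one_pow, one_mul] at h
    constructor
    · have := h.1; simp only [hVdef, hTr]; linarith
    · have := h.2; simp only [hVdef, hTr, hEr]; linarith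
  have hVv : ∀ i, v ≤ V i := by
    intro i
    have h1 : Real.exp (-(2 * ∑ l ∈ Pb P i, (1 : ℝ) / l)) ≤ V i := by
      have : -(2 * ∑ l ∈ Pb P i, (1 : ℝ) / l) = ∑ l ∈ Pb P i, (-(2 * (1 / (l : ℝ)))) := by
        rw [mul_sum, ← sum_neg_distrib]
      rw [this, Real.exp_sum]
      refine prod_le_prod (fun l _ => (Real.exp_pos _).le) fun l hl => ?_
      have h2 := bh_inv_bd (hPp i l hl)
      exact bh_inv_ge h2.1 h2.2
    refine le_trans ?_ h1
    rw [hv]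
    exact Real.exp_le_exp.2 (by linarith [hL i])
  have hEr0 : ∀ i, 0 ≤ Er i := fun i => bhE_nonneg _ _ _ fun l hl => (hgb i l hl).1
  have hErle : ∀ i, Er i ≤ 1 / ((bb b0 i + 1).factorial : ℝ) := by
    intro i
    refine (bhE_le gg (Pb P i) (fun l hl => (hgb i l hl).1) (bb b0 i + 1)).trans ?_
    have h0 : 0 ≤ ∑ l ∈ Pb P i, gg l := sum_nonneg fun l hl => (hgb i l hl).1
    have h1 : ∑ l ∈ Pb P i, gg l ≤ 1 := hL i
    have h2 : (∑ l ∈ Pb P i, gg l) ^ (bb b0 i + 1) ≤ 1 := pow_le_one₀ h0 h1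
    gcongr
  have hErsum : ∑ i, Er i ≤ S := (sum_le_sum fun i _ => hErle i).trans hS
  have hV0 : ∀ i, 0 < V i := fun i => lt_of_lt_of_le hv0 (hVv i)
  have hTr0 : ∀ i, 0 < Tr i := fun i => lt_of_lt_of_le (hV0 i) (hbonf i).1
  have hVV : VV P = ∏ i, V i := by
    have h1 := bh_pT_eq (fun i : Fin J => Pb P i) hsub (fun l => 1 - gg l)
    have h2 : bhU (fun i : Fin J => Pb P i) = P := by
      ext l
      unfold bhU
      rw [mem_biUnion]
      constructor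
      · rintro ⟨i, _, hi⟩
        exact (mem_inter.1 hi).2
      · intro hl
        obtain ⟨i, hi⟩ := hP l hl
        exact ⟨i, mem_univ _, mem_inter.2 ⟨hi, hl⟩⟩
    rw [h2] at h1
    rw [hVdef, h1]
    rfl
  have hVV0 : 0 < VV P := by
    rw [hVV]; exact prod_pos fun i _ => hV0 i
  have hTV : VV P ≤ ∏ i, Tr i := by
    rw [hVV]; exact prod_le_prod (fun i _ => (hV0 i).le) fun i _ => (hbonf i).1
  have hvinv : ∀ z : ℝ, z / v = Real.exp 2 * z := by
    intro z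
    rw [hv, Real.exp_neg, div_inv_eq_mul, mul_comm]
  set s : ℝ := Real.exp 2 * S with hs
  have hEs : (∑ i, Er i) / v ≤ s := by
    rw [hvinv]; exact mul_le_mul_of_nonneg_left hErsum (Real.exp_pos _).le
  have hEs0 : 0 ≤ (∑ i, Er i) / v := div_nonneg (sum_nonneg fun i _ => hEr0 i) hv0.le
  have hs0 : 0 ≤ s := hEs0.trans hEs
  have hTup : ∏ i, Tr i ≤ VV P * (1 + 2 * s) := by
    have h1 : ∏ i, Tr i ≤ ∏ i, V i * Real.exp (Er i / v) := by
      refine prod_le_prod (fun i _ => (hTr0 i).le) fun i _ => ?_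
      refine (hbonf i).2.trans ?_
      have h2 := Real.add_one_le_exp (Er i / v)
      have h3 : V i * (Er i / v + 1) ≤ V i * Real.exp (Er i / v) :=
        mul_le_mul_of_nonneg_left h2 (hV0 i).le
      refine le_trans ?_ h3
      have h4 : Er i ≤ V i * (Er i / v) := by
        rw [← mul_div_assoc, le_div_iff₀ hv0, mul_comm (V i)]
        exact mul_le_mul_of_nonneg_left (hVv i) (hEr0 i)
      linarith
    rw [prod_mul_distrib, ← Real.exp_sum, ← sum_div, ← hVV] at h1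
    refine h1.trans (mul_le_mul_of_nonneg_left ?_ hVV0.le)
    have h2 : Real.exp ((∑ i, Er i) / v) ≤ Real.exp s := Real.exp_le_exp.2 hEs
    have h3 := Real.abs_exp_sub_one_le (x := s) (by rw [abs_of_nonneg hs0]; exact hS1)
    rw [abs_of_nonneg hs0] at h3
    have h4 := (abs_le.1 h3).2
    linarith
  have hT3 : ∏ i, Tr i ≤ 3 * VV P := by
    have h1 : VV P * (1 + 2 * s) ≤ VV P * 3 :=
      mul_le_mul_of_nonneg_left (by linarith) hVV0.le
    linarith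
  constructor
  · rw [abs_of_nonneg (by linarith)]
    have h1 : 0 ≤ s * VV P := mul_nonneg hs0 hVV0.le
    linarith
  · have hk : ∀ k, Er k * ∏ i ∈ univ.erase k, Tr i ≤ Er k / v * ∏ i, Tr i := by
      intro k
      have h1 : ∏ i, Tr i = Tr k * ∏ i ∈ univ.erase k, Tr i :=
        (mul_prod_erase univ Tr (mem_univ k)).symm
      have h2 : 0 ≤ ∏ i ∈ univ.erase k, Tr i := prod_nonneg fun i _ => (hTr0 i).le
      rw [h1, div_mul_eq_mul_div, le_div_iff₀ hv0]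
      have h3 : v ≤ Tr k := (hVv k).trans (hbonf k).1
      have h4 : Er k * (∏ i ∈ univ.erase k, Tr i) * v ≤
          Er k * (∏ i ∈ univ.erase k, Tr i) * Tr k :=
        mul_le_mul_of_nonneg_left h3 (mul_nonneg (hEr0 k) h2)
      linarith
    have h0 : 0 ≤ ∑ k, Er k * ∏ i ∈ univ.erase k, Tr i :=
      sum_nonneg fun k _ => mul_nonneg (hEr0 k) (prod_nonneg fun i _ => (hTr0 i).le)
    rw [abs_of_nonneg h0]
    calc ∑ k, Er k * ∏ i ∈ univ.erase k, Tr i ≤ ∑ k, Er k / v * ∏ i, Tr i :=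
          sum_le_sum fun k _ => hk k
      _ = (∑ k, Er k) / v * ∏ i, Tr i := by rw [← sum_mul, sum_div]
      _ ≤ s * (3 * VV P) := mul_le_mul hEs hT3 (prod_nonneg fun i _ => (hTr0 i).le) hs0
      _ = 3 * s * VV P := by ring

theorem sum_bd (b0 J : ℕ) : ∑ i : Fin J, 1 / ((bb b0 i + 1).factorial : ℝ) ≤
    2 / ((b0 + 1).factorial : ℝ) := by
  unfold bb
  rw [Fin.sum_univ_eq_sum_range (fun i => 1 / ((b0 + 2 * (J - 1 - i) + 1).factorial : ℝ)) J,
    Finset.sum_range_reflect (fun k => 1 / ((b0 + 2 * k + 1).factorial : ℝ)) J]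
  have h1 : ∀ k ∈ range J, 1 / ((b0 + 2 * k + 1).factorial : ℝ) ≤
      1 / ((b0 + 1).factorial : ℝ) * (1 / 2) ^ k := by
    intro k _
    have h2 : (b0 + 1).factorial * 2 ^ k ≤ (b0 + 2 * k + 1).factorial := by
      calc (b0 + 1).factorial * 2 ^ k ≤ (b0 + 1).factorial * (b0 + 1 + 1) ^ k :=
            Nat.mul_le_mul_left _ (Nat.pow_le_pow_left (by omega) k)
        _ ≤ (b0 + 1 + k).factorial := Nat.factorial_mul_pow_le_factorial
        _ ≤ _ := Nat.factorial_le (by omega)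
    have h3 : ((b0 + 1).factorial : ℝ) * 2 ^ k ≤ ((b0 + 2 * k + 1).factorial : ℝ) := by
      exact_mod_cast h2
    have h4 : (0 : ℝ) < (b0 + 1).factorial := by exact_mod_cast Nat.factorial_pos _
    rw [one_div_pow, one_div_mul_one_div]
    exact one_div_le_one_div_of_le (by positivity) (by linarith)
  refine (sum_le_sum h1).trans ?_
  rw [← mul_sum]
  have h5 := sum_geometric_two_le J
  have h4 : (0 : ℝ) < (b0 + 1).factorial := by exact_mod_cast Nat.factorial_pos _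
  calc 1 / ((b0 + 1).factorial : ℝ) * ∑ i ∈ range J, (1 / 2) ^ i ≤
        1 / ((b0 + 1).factorial : ℝ) * 2 := mul_le_mul_of_nonneg_left h5 (by positivity)
    _ = _ := by ring

theorem choose_b (η₀ A : ℝ) (hη : 0 < η₀) (hA : 0 < A) : ∃ εs : ℝ, 0 < εs ∧ εs ≤ 1 / 2 ∧
    ∀ ε₁ : ℝ, 0 < ε₁ → ε₁ ≤ εs → ∃ b0 : ℕ, Even b0 ∧ 2 * ε₁ * (2 * b0 + 6) ≤ η₀ ∧
      3 * (Real.exp 2 * (2 / ((b0 + 1).factorial : ℝ))) ≤ Real.exp (-(A / ε₁)) := by
  set c : ℝ := η₀ / 4 with hc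
  have hc0 : 0 < c := by positivity
  set K : ℝ := Real.exp (A / c) with hK
  have hK0 : 0 < K := Real.exp_pos _
  set δ : ℝ := 1 / (6 * Real.exp 2 * K ^ 4) with hδ
  have hδ0 : 0 < δ := by positivity
  have ht := FloorSemiring.tendsto_pow_div_factorial_atTop K
  obtain ⟨n0, hn0⟩ := (ht.eventually (gt_mem_nhds hδ0)).exists_forall_of_atTop
  refine ⟨min (1 / 2) (c / (n0 + 4)), by positivity, min_le_left _ _, ?_⟩
  intro ε₁ hε hεs
  have h1 : ε₁ ≤ c / (n0 + 4) := hεs.trans (min_le_right _ _)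
  have h2 : (n0 : ℝ) + 4 ≤ c / ε₁ := by
    rw [le_div_iff₀ hε]
    rw [le_div_iff₀ (by positivity)] at h1
    linarith
  have hn0' : (0:ℝ) ≤ n0 := Nat.cast_nonneg _
  set y : ℝ := (c / ε₁ - 3) / 2 with hy
  have hy0 : 0 ≤ y := by rw [hy]; linarith
  have hf1 : ((⌊y⌋₊ : ℕ) : ℝ) ≤ y := Nat.floor_le hy0
  have hf2 : y < ⌊y⌋₊ + 1 := Nat.lt_floor_add_one y
  refine ⟨2 * ⌊y⌋₊, even_two_mul _, ?_, ?_⟩
  · push_cast
    have h3 : 2 * (2 * (⌊y⌋₊ : ℝ)) + 6 ≤ 2 * (c / ε₁) := by rw [hy] at hf1 ⊢; linarith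
    calc 2 * ε₁ * (2 * (2 * (⌊y⌋₊ : ℝ)) + 6) ≤ 2 * ε₁ * (2 * (c / ε₁)) :=
          mul_le_mul_of_nonneg_left h3 (by positivity)
      _ = 4 * c := by field_simp; ring
      _ = η₀ := by rw [hc]; ring
  · set n : ℕ := 2 * ⌊y⌋₊ + 1 with hn
    have h3 : c / ε₁ - 4 ≤ (n : ℝ) := by
      rw [hn]; push_cast; rw [hy] at hf2; linarith
    have h4 : n0 ≤ n := by
      have : (n0 : ℝ) ≤ n := by linarith
      exact_mod_cast this
    have h5 := hn0 n h4
    have hfac : (0 : ℝ) < n.factorial := by exact_mod_cast Nat.factorial_pos _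
    have h6 : A / ε₁ ≤ (A / c) * ((n + 4 : ℕ) : ℝ) := by
      push_cast
      have h7 : 1 / ε₁ ≤ ((n : ℝ) + 4) / c := by
        rw [le_div_iff₀ hc0]
        have : 1 / ε₁ * c = c / ε₁ := by ring
        linarith
      calc A / ε₁ = A * (1 / ε₁) := by ring
        _ ≤ A * (((n : ℝ) + 4) / c) := mul_le_mul_of_nonneg_left h7 hA.le
        _ = _ := by ring
    have h8 : Real.exp (A / ε₁) ≤ K ^ (n + 4) := by
      rw [hK, ← Real.exp_nat_mul]
      apply Real.exp_le_exp.2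
      rw [mul_comm]; exact h6
    rw [div_lt_iff₀ hfac, hδ] at h5
    have h9 : 6 * Real.exp 2 * K ^ (n + 4) ≤ n.factorial := by
      have h10 : K ^ n * (6 * Real.exp 2 * K ^ 4) ≤
          1 / (6 * Real.exp 2 * K ^ 4) * (n.factorial : ℝ) * (6 * Real.exp 2 * K ^ 4) :=
        mul_le_mul_of_nonneg_right h5.le (by positivity)
      have h11 : 1 / (6 * Real.exp 2 * K ^ 4) * (n.factorial : ℝ) * (6 * Real.exp 2 * K ^ 4) =
          (n.factorial : ℝ) := by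
        field_simp
      rw [h11] at h10
      calc 6 * Real.exp 2 * K ^ (n + 4) = K ^ n * (6 * Real.exp 2 * K ^ 4) := by ring
        _ ≤ _ := h10
    have h12 : 6 * Real.exp 2 * Real.exp (A / ε₁) ≤ n.factorial :=
      (mul_le_mul_of_nonneg_left h8 (by positivity)).trans h9
    rw [Real.exp_neg, ← one_div, le_div_iff₀ (Real.exp_pos _)]
    have h13 : 3 * (Real.exp 2 * (2 / (n.factorial : ℝ))) * Real.exp (A / ε₁) =
        6 * Real.exp 2 * Real.exp (A / ε₁) / n.factorial := by ring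
    rw [h13, div_le_one hfac]
    exact h12

theorem L_bd : ∃ x0 : ℝ, ∀ y : ℝ, x0 ≤ y → ∀ P : Finset ℕ, (∀ p ∈ P, y ≤ (p : ℝ)) →
    ∀ (J : ℕ) (i : Fin J), ∑ l ∈ Pb P i, (1 : ℝ) / l ≤ 1 := by
  obtain ⟨CM, hCM, hM⟩ := mertens_group
  obtain ⟨j0, hj0⟩ := pow_unbounded_of_one_lt (CM / (3 / 10)) (one_lt_two (α := ℝ))
  refine ⟨2 ^ 2 ^ j0, ?_⟩
  intro y hy P hP J i
  by_cases h : (i : ℕ) + 1 ≤ j0
  · have : Pb P i = ∅ := by
      rw [Finset.eq_empty_iff_forall_notMem]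
      intro l hl
      obtain ⟨h1, h2⟩ := mem_inter.1 hl
      have h3 := (bh_Gj_mem h1).2.2
      have h4 : l < 2 ^ 2 ^ j0 := lt_of_lt_of_le h3
        (Nat.pow_le_pow_right (by norm_num) (Nat.pow_le_pow_right (by norm_num) h))
      have h5 : (l : ℝ) < 2 ^ 2 ^ j0 := by exact_mod_cast h4
      linarith [hP l h2]
    rw [this]; simp
  · push Not at h
    have h1 : ∑ l ∈ Pb P i, (1 : ℝ) / l ≤ ∑ l ∈ Gj ((i : ℕ) + 1), (1 : ℝ) / l :=
      sum_le_sum_of_subset_of_nonneg inter_subset_left (fun l _ _ => by positivity)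
    have h2 := (abs_le.1 (hM ((i : ℕ) + 1) (by omega))).2
    have h3 : CM / 2 ^ ((i : ℕ) + 1) ≤ 3 / 10 := by
      rw [div_le_iff₀ (by positivity)]
      have h4 : (2 : ℝ) ^ j0 ≤ 2 ^ ((i : ℕ) + 1) := pow_le_pow_right₀ (by norm_num) h.le
      rw [div_lt_iff₀ (by norm_num)] at hj0
      linarith
    have h5 := Real.log_two_lt_d9
    linarith

theorem exJ (w : ℝ) (hw : 2 < w) : ∃ J : ℕ, w ≤ 2 ^ 2 ^ J ∧ (2 : ℝ) ^ 2 ^ J < w ^ 2 ∧
    (J : ℝ) * Real.log 2 ≤ Real.log w := by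
  have hex : ∃ J : ℕ, w ≤ 2 ^ 2 ^ J := by
    obtain ⟨n, hn⟩ := pow_unbounded_of_one_lt w (one_lt_two (α := ℝ))
    refine ⟨n, hn.le.trans (pow_le_pow_right₀ (by norm_num) Nat.lt_two_pow_self.le)⟩
  classical
  have h1 := Nat.find_spec hex
  have h0 : Nat.find hex ≠ 0 := by
    intro h0
    rw [h0] at h1
    norm_num at h1
    linarith
  obtain ⟨j, hj⟩ := Nat.exists_eq_succ_of_ne_zero h0
  have h2 : ¬ w ≤ 2 ^ 2 ^ j := Nat.find_min hex (by omega)
  push Not at h2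
  rw [hj] at h1
  refine ⟨j + 1, h1, ?_, ?_⟩
  · have h3 : (2 : ℝ) ^ 2 ^ (j + 1) = (2 ^ 2 ^ j) ^ 2 := by
      rw [← pow_mul, pow_succ]
    rw [h3]
    exact pow_lt_pow_left₀ h2 (by positivity) (by norm_num)
  · have h3 : (((j + 1 : ℕ)) : ℝ) ≤ 2 ^ j := by
      have : j + 1 ≤ 2 ^ j := Nat.lt_two_pow_self
      exact_mod_cast this
    have h4 : (2 : ℝ) ^ j * Real.log 2 ≤ Real.log w := by
      have h5 : Real.log ((2 : ℝ) ^ 2 ^ j) ≤ Real.log w := Real.log_le_log (by positivity) h2.le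
      rw [Real.log_pow] at h5
      push_cast at h5
      exact h5
    exact (mul_le_mul_of_nonneg_right h3 (Real.log_nonneg (by norm_num))).trans h4

theorem FLW : St_FLW := by
  intro η₀ A hη hA
  obtain ⟨εs, hεs0, hεs1, hb⟩ := choose_b η₀ A hη hA
  obtain ⟨x0, hx0⟩ := L_bd
  refine ⟨εs, hεs0, ?_⟩
  intro ε₁ hε hε1 B hB
  obtain ⟨b0, hb0, hlev, hfac⟩ := hb ε₁ hε hε1
  have hlog : Filter.Tendsto (fun N : ℕ => Real.log (N : ℝ)) Filter.atTop Filter.atTop :=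
    Real.tendsto_log_atTop.comp tendsto_natCast_atTop_atTop
  have hpow : Filter.Tendsto (fun N : ℕ => (N : ℝ) ^ ε₁) Filter.atTop Filter.atTop :=
    (tendsto_rpow_atTop hε).comp tendsto_natCast_atTop_atTop
  obtain ⟨N₀, hN₀⟩ := (((hlog.eventually_ge_atTop x0).and (hlog.eventually_ge_atTop 1)).and
    (hpow.eventually_gt_atTop 2)).exists_forall_of_atTop
  refine ⟨N₀, ?_⟩
  intro N hN D hD
  obtain ⟨⟨hl1, hl2⟩, hw⟩ := hN₀ N hN
  obtain ⟨J, hJ1, hJ2, hJ3⟩ := exJ _ hw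
  have hN0 : (0 : ℝ) < N := by
    rcases Nat.eq_zero_or_pos N with h | h
    · rw [h] at hl2; norm_num at hl2
    · exact_mod_cast h
  have hN1 : (1 : ℝ) ≤ N := by
    have : 1 ≤ N := by exact_mod_cast hN0
    exact_mod_cast this
  have hcov : ∀ p ∈ P1 N B ε₁, ∃ i : Fin J, p ∈ Gj ((i : ℕ) + 1) := by
    intro p hp
    unfold P1 at hp
    obtain ⟨-, hpp, -, hpt⟩ := mem_filter.1 hp
    apply bh_cover hpp
    unfold tt at hpt
    rw [div_lt_iff₀ (by linarith)] at hpt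
    have hp0 : (0 : ℝ) < p := by exact_mod_cast hpp.pos
    have h1 : (p : ℝ) < (N : ℝ) ^ ε₁ := by
      rw [← Real.log_lt_log_iff hp0 (by positivity), Real.log_rpow hN0]
      exact hpt
    have h2 : (p : ℝ) < 2 ^ 2 ^ J := lt_of_lt_of_le h1 hJ1
    exact_mod_cast h2
  have hge : ∀ p ∈ P1 N B ε₁, Real.log N ≤ (p : ℝ) := by
    intro p hp
    unfold P1 at hp
    obtain ⟨-, -, h1, -⟩ := mem_filter.1 hp
    refine le_trans ?_ h1
    exact le_self_pow₀ hl2 (by omega)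
  have hJlog : (J : ℝ) ≤ Real.log N := by
    rw [Real.log_rpow hN0] at hJ3
    have h1 := Real.log_two_gt_d9
    have h2 : ε₁ * Real.log N ≤ 1 / 2 * Real.log N :=
      mul_le_mul_of_nonneg_right (hε1.trans hεs1) (by linarith)
    have h3 : (J : ℝ) * (1 / 2) ≤ (J : ℝ) * Real.log 2 :=
      mul_le_mul_of_nonneg_left (by linarith) (Nat.cast_nonneg _)
    linarith
  have hDlev : (2 ^ 2 ^ J) ^ (2 * b0 + 6) ≤ D := by
    rw [hD]
    apply Nat.le_floor
    push_cast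
    have h1 : ((2 : ℝ) ^ 2 ^ J) ^ (2 * b0 + 6) ≤ (((N : ℝ) ^ ε₁) ^ 2) ^ (2 * b0 + 6) :=
      pow_le_pow_left₀ (by positivity) hJ2.le _
    refine h1.trans ?_
    rw [← pow_mul, ← Real.rpow_mul_natCast hN0.le]
    apply Real.rpow_le_rpow_of_exponent_le hN1
    push_cast
    linarith
  obtain ⟨th, dl, h1, h2, h3, h4, h5⟩ := comb (P1 N B ε₁) hcov b0 hb0 D hDlev (Real.log N) hl2 hJlog
  refine ⟨th, dl, h1, h2, h3, ?_⟩
  have hS1 : Real.exp 2 * (2 / ((b0 + 1).factorial : ℝ)) ≤ 1 := by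
    have h6 : Real.exp (-(A / ε₁)) ≤ 1 := Real.exp_le_one_iff.2 (by
      have : 0 < A / ε₁ := div_pos hA hε
      linarith)
    have h7 : 0 ≤ Real.exp 2 * (2 / ((b0 + 1).factorial : ℝ)) := by positivity
    linarith
  obtain ⟨h6, h7⟩ := num (P1 N B ε₁) hcov b0 hb0 (hx0 _ hl1 _ hge J) _ (sum_bd b0 J) hS1
  have hVV : 0 ≤ VV (P1 N B ε₁) := by
    unfold VV
    apply prod_nonneg
    intro p hp
    unfold P1 at hp
    have h8 := bh_inv_bd (mem_filter.1 hp).2.1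
    linarith [h8.2]
  rw [h4, h5]
  exact ⟨h6.trans (mul_le_mul_of_nonneg_right hfac hVV),
    h7.trans (mul_le_mul_of_nonneg_right hfac hVV)⟩

end Pool.Agent.U690.PL
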