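import Pool.Agent.W23.PL.Defs
import Pool.Agent.Helper112.Lp.Kbh

/-!
# Project CP, package FLW: the combinatorial half
-/

set_option autoImplicit false

open Finset

namespace Pool.Agent.U690.PL

open Pool.Agent.W23.PL
open Pool.Agent.Helper112.LP Pool.Agent.Helper112.LP.Kbh Pool.Agent.Helper112.LP.Kba

variable {J : ℕ}

/-- the product of a family -/
def pr (T : Fin J → Finset ℕ) : ℕ := ∏ l ∈ bhU T, l

/-- the coefficients of a product of divisor sums -/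
noncomputable def co (F : Fin J → Finset (Finset ℕ)) (c : Fin J → Finset ℕ → ℝ) (e : ℕ) : ℝ :=
  ∑ T ∈ Fintype.piFinset F, if pr T = e then ∏ i, c i (T i) else 0

theorem pr_inj {T T' : Fin J → Finset ℕ} (h1 : ∀ i, T i ⊆ Gj ((i : ℕ) + 1))
    (h1' : ∀ i, T' i ⊆ Gj ((i : ℕ) + 1)) (h : pr T = pr T') : T = T' := by
  have hU : bhU T = bhU T' := by
    rw [← bh_primeFactors T h1, ← bh_primeFactors T' h1']
    exact congrArg Nat.primeFactors h
  funext i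
  ext l
  have aux : ∀ T T' : Fin J → Finset ℕ, (∀ i, T i ⊆ Gj ((i : ℕ) + 1)) →
      (∀ i, T' i ⊆ Gj ((i : ℕ) + 1)) → bhU T = bhU T' → l ∈ T i → l ∈ T' i := by
    intro T T' h1 h1' hU hl
    have hlU : l ∈ bhU T' := by
      rw [← hU]; unfold bhU; exact mem_biUnion.2 ⟨i, mem_univ _, hl⟩
    unfold bhU at hlU
    obtain ⟨j, _, hj⟩ := mem_biUnion.1 hlU
    have := bh_Gj_disj (h1 i hl) (h1' j hj)
    have hij : i = j := Fin.ext this
    rw [hij]; exact hj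
  exact ⟨aux T T' h1 h1' hU, aux T' T h1' h1 hU.symm⟩

theorem mem_F {F : Fin J → Finset (Finset ℕ)} (hG : ∀ i, ∀ U ∈ F i, U ⊆ Gj ((i : ℕ) + 1))
    {T : Fin J → Finset ℕ} (hT : T ∈ Fintype.piFinset F) : ∀ i, T i ⊆ Gj ((i : ℕ) + 1) :=
  fun i => hG i _ (Fintype.mem_piFinset.1 hT i)

theorem co_abs {F : Fin J → Finset (Finset ℕ)} {c : Fin J → Finset ℕ → ℝ}
    (hG : ∀ i, ∀ U ∈ F i, U ⊆ Gj ((i : ℕ) + 1)) (hc : ∀ i U, |c i U| ≤ 1) (e : ℕ) :
    |co F c e| ≤ 1 := by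
  unfold co
  by_cases h : ∃ T ∈ Fintype.piFinset F, pr T = e
  · obtain ⟨T, hT, hTe⟩ := h
    rw [Finset.sum_eq_single T]
    · rw [if_pos hTe, abs_prod]
      exact prod_le_one (fun _ _ => abs_nonneg _) (fun i _ => hc i _)
    · intro T' hT' hne
      rw [if_neg]
      intro h
      exact hne (pr_inj (mem_F hG hT') (mem_F hG hT) (h.trans hTe.symm))
    · intro h; exact absurd hT h
  · push Not at h
    rw [Finset.sum_eq_zero]
    · simp
    · intro T hT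
      rw [if_neg (h T hT)]

theorem co_supp {F : Fin J → Finset (Finset ℕ)} {c : Fin J → Finset ℕ → ℝ} {e : ℕ}
    (h : co F c e ≠ 0) : ∃ T ∈ Fintype.piFinset F, pr T = e := by
  obtain ⟨T, hT, h1⟩ := exists_ne_zero_of_sum_ne_zero h
  refine ⟨T, hT, ?_⟩
  by_contra h2
  exact h1 (if_neg h2)

theorem pr_pos {T : Fin J → Finset ℕ} (h1 : ∀ i, T i ⊆ Gj ((i : ℕ) + 1)) : 1 ≤ pr T :=
  prod_pos fun _ hl => (bh_mem T h1 hl).1.pos

theorem co_DW {P : Finset ℕ} {D : ℕ} {F : Fin J → Finset (Finset ℕ)} {c : Fin J → Finset ℕ → ℝ}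
    (hG : ∀ i, ∀ U ∈ F i, U ⊆ Gj ((i : ℕ) + 1)) (hP : ∀ i, ∀ U ∈ F i, U ⊆ P)
    (hD : ∀ T ∈ Fintype.piFinset F, pr T ≤ D) {e : ℕ} (h : co F c e ≠ 0) :
    Squarefree e ∧ e ≤ D ∧ ∀ p : ℕ, p.Prime → p ∣ e → p ∈ P := by
  obtain ⟨T, hT, rfl⟩ := co_supp h
  have h1 := mem_F hG hT
  refine ⟨bh_squarefree T h1, hD T hT, ?_⟩
  intro p hp hpe
  have h2 : p ∈ (∏ l ∈ bhU T, l).primeFactors :=
    Nat.mem_primeFactors.2 ⟨hp, hpe, (Nat.one_le_iff_ne_zero.1 (pr_pos h1))⟩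
  rw [bh_primeFactors T h1] at h2
  unfold bhU at h2
  obtain ⟨i, _, hi⟩ := mem_biUnion.1 h2
  exact hP i _ (Fintype.mem_piFinset.1 hT i) hi

theorem Ev_co {D : ℕ} {F : Fin J → Finset (Finset ℕ)} {c : Fin J → Finset ℕ → ℝ}
    (hG : ∀ i, ∀ U ∈ F i, U ⊆ Gj ((i : ℕ) + 1)) (hD : ∀ T ∈ Fintype.piFinset F, pr T ≤ D) (m : ℤ) :
    Ev (co F c) D m = ∏ i, ∑ U ∈ F i, if ∀ l ∈ U, l ∣ m.natAbs then c i U else 0 := by
  have h1 : Ev (co F c) D m = ∑ T ∈ Fintype.piFinset F, (∏ i, c i (T i)) *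
      (if ∀ i, ∀ l ∈ T i, l ∣ m.natAbs then (1 : ℝ) else 0) := by
    unfold Ev co
    simp_rw [sum_mul]
    rw [sum_comm]
    apply sum_congr rfl
    intro T hT
    have hT1 := mem_F hG hT
    have hmem : pr T ∈ Icc 1 D := mem_Icc.2 ⟨pr_pos hT1, hD T hT⟩
    rw [Finset.sum_eq_single (pr T)]
    · rw [if_pos rfl]
      congr 1
      have h2 : ((pr T : ℕ) : ℤ) ∣ m ↔ ∀ i, ∀ l ∈ T i, l ∣ m.natAbs := by
        rw [Int.natCast_dvd]; exact bh_dvd T hT1 _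
      by_cases h3 : ((pr T : ℕ) : ℤ) ∣ m
      · rw [if_pos h3, if_pos (h2.1 h3)]
      · rw [if_neg h3, if_neg (fun h => h3 (h2.2 h))]
    · intro e _ hne
      rw [if_neg (Ne.symm hne), zero_mul]
    · intro h; exact absurd hmem h
  rw [h1, prod_univ_sum]
  apply sum_congr rfl
  intro T _
  rw [Fintype.prod_ite_zero]
  split_ifs <;> simp

theorem hat_co {D : ℕ} {F : Fin J → Finset (Finset ℕ)} {c : Fin J → Finset ℕ → ℝ}
    (hG : ∀ i, ∀ U ∈ F i, U ⊆ Gj ((i : ℕ) + 1)) (hD : ∀ T ∈ Fintype.piFinset F, pr T ≤ D) :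
    hat (co F c) D = ∏ i, ∑ U ∈ F i, c i U * ∏ l ∈ U, (1 / (l : ℝ)) := by
  have h1 : hat (co F c) D = ∑ T ∈ Fintype.piFinset F, (∏ i, c i (T i)) / (pr T : ℝ) := by
    unfold hat co
    simp_rw [sum_div]
    rw [sum_comm]
    apply sum_congr rfl
    intro T hT
    have hT1 := mem_F hG hT
    have hmem : pr T ∈ Icc 1 D := mem_Icc.2 ⟨pr_pos hT1, hD T hT⟩
    rw [Finset.sum_eq_single (pr T)]
    · rw [if_pos rfl]
    · intro e _ hne
      rw [if_neg (Ne.symm hne), zero_div]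
    · intro h; exact absurd hmem h
  rw [h1, prod_univ_sum]
  apply sum_congr rfl
  intro T hT
  have hT1 := mem_F hG hT
  rw [prod_mul_distrib, bh_pT_eq T hT1 (fun l => 1 / (l : ℝ)), prod_div_distrib, prod_const_one,
    mul_one_div]
  unfold pr
  push_cast
  rfl

/-- the blocks -/
def Pb (P : Finset ℕ) (i : Fin J) : Finset ℕ := Gj ((i : ℕ) + 1) ∩ P

/-- the truncations -/
def bb (b0 : ℕ) (i : Fin J) : ℕ := b0 + 2 * (J - 1 - (i : ℕ))

/-- the density -/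
noncomputable def gg (l : ℕ) : ℝ := 1 / (l : ℝ)

theorem xx_eq (P : Finset ℕ) (hP : ∀ p ∈ P, ∃ i : Fin J, p ∈ Gj ((i : ℕ) + 1)) (m : ℤ) :
    xx P m = ∏ i : Fin J, (if ∀ l ∈ Pb P i, ¬ l ∣ m.natAbs then (1 : ℝ) else 0) := by
  rw [Fintype.prod_ite_zero]
  unfold xx
  have h : (∀ p ∈ P, ¬ (p : ℤ) ∣ m) ↔ ∀ i : Fin J, ∀ l ∈ Pb P i, ¬ l ∣ m.natAbs := by
    constructor
    · intro h i l hl
      have := h l (mem_inter.1 hl).2
      rwa [Int.natCast_dvd] at this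
    · intro h p hp
      obtain ⟨i, hi⟩ := hP p hp
      rw [Int.natCast_dvd]
      exact h i p (mem_inter.2 ⟨hi, hp⟩)
  by_cases h2 : ∀ p ∈ P, ¬ (p : ℤ) ∣ m
  · rw [if_pos h2, if_pos (h.1 h2)]; simp
  · rw [if_neg h2, if_neg (fun h3 => h2 (h.2 h3))]

theorem comb (P : Finset ℕ) (hP : ∀ p ∈ P, ∃ i : Fin J, p ∈ Gj ((i : ℕ) + 1)) (b0 : ℕ)
    (hb0 : Even b0) (D : ℕ) (hD : (2 ^ 2 ^ J) ^ (2 * b0 + 6) ≤ D) (U : ℝ) (hU1 : 1 ≤ U)
    (hUJ : (J : ℝ) ≤ U) : ∃ th dl : ℕ → ℝ, DW P D U th ∧ DW P D U dl ∧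
      (∀ m : ℤ, xx P m ≤ Ev th D m ∧ Ev th D m - xx P m ≤ Ev dl D m) ∧
      hat th D = ∏ i : Fin J, bhA gg (bb b0 i) (Pb P i) ∧
      hat dl D = ∑ k : Fin J, bhE gg (bb b0 k + 1) (Pb P k) *
        ∏ i ∈ univ.erase k, bhA gg (bb b0 i) (Pb P i) := by
  classical
  have hbe : ∀ i : Fin J, Even (bb b0 i) := fun i => hb0.add (even_two_mul _)
  set F1 : Fin J → Finset (Finset ℕ) := fun i => (Pb P i).powerset.filter (fun U => U.card ≤ bb b0 i)
    with hF1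
  set F2 : Fin J → Fin J → Finset (Finset ℕ) := fun k i => if i = k then
    powersetCard (bb b0 i + 1) (Pb P i) else (Pb P i).powerset.filter (fun U => U.card ≤ bb b0 i)
    with hF2
  set c2 : Fin J → Fin J → Finset ℕ → ℝ := fun k i U => if i = k then 1 else (-1) ^ U.card with hc2
  have hsub : ∀ i : Fin J, Pb P i ⊆ Gj ((i : ℕ) + 1) := fun i => inter_subset_left
  have hsubP : ∀ i : Fin J, Pb P i ⊆ P := fun i => inter_subset_right
  have hF1s : ∀ i, ∀ U ∈ F1 i, U ⊆ Pb P i := fun i U hU => mem_powerset.1 (mem_filter.1 hU).1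
  have hF2s : ∀ k i, ∀ U ∈ F2 k i, U ⊆ Pb P i := by
    intro k i U hU
    simp only [hF2] at hU
    split_ifs at hU
    · exact (mem_powersetCard.1 hU).1
    · exact mem_powerset.1 (mem_filter.1 hU).1
  have hG1 : ∀ i, ∀ U ∈ F1 i, U ⊆ Gj ((i : ℕ) + 1) := fun i U hU => (hF1s i U hU).trans (hsub i)
  have hG2 : ∀ k i, ∀ U ∈ F2 k i, U ⊆ Gj ((i : ℕ) + 1) :=
    fun k i U hU => (hF2s k i U hU).trans (hsub i)
  have hlev : ∀ T : Fin J → Finset ℕ, (∀ i, T i ⊆ Gj ((i : ℕ) + 1)) →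
      (∀ i, (T i).card ≤ bb b0 i + 1) → pr T ≤ D := by
    intro T h1 h2
    exact (bh_level T h1 h2).trans hD
  have hD1 : ∀ T ∈ Fintype.piFinset F1, pr T ≤ D := by
    intro T hT
    refine hlev T (mem_F hG1 hT) fun i => ?_
    have := Fintype.mem_piFinset.1 hT i
    exact (mem_filter.1 this).2.trans (Nat.le_succ _)
  have hD2 : ∀ k, ∀ T ∈ Fintype.piFinset (F2 k), pr T ≤ D := by
    intro k T hT
    refine hlev T (mem_F (hG2 k) hT) fun i => ?_
    have h3 := Fintype.mem_piFinset.1 hT i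
    simp only [hF2] at h3
    split_ifs at h3
    · exact (mem_powersetCard.1 h3).2.le
    · exact (mem_filter.1 h3).2.trans (Nat.le_succ _)
  have hpi : ∀ (k : Fin J) (f1 f2 : Fin J → ℝ), (∏ i, if i = k then f1 i else f2 i) =
      f1 k * ∏ i ∈ univ.erase k, f2 i := by
    intro k f1 f2
    rw [← mul_prod_erase univ _ (mem_univ k), if_pos rfl]
    congr 1
    apply prod_congr rfl
    intro i hi
    rw [if_neg (ne_of_mem_erase hi)]
  set th : ℕ → ℝ := co F1 (fun _ U => (-1) ^ U.card) with hth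
  set dl : ℕ → ℝ := fun e => ∑ k, co (F2 k) (c2 k) e with hdl
  have hEvdl : ∀ m : ℤ, Ev dl D m = ∑ k, Ev (co (F2 k) (c2 k)) D m := by
    intro m
    unfold Ev
    rw [sum_comm]
    apply sum_congr rfl
    intro e _
    rw [hdl, sum_mul]
  have hhatdl : hat dl D = ∑ k, hat (co (F2 k) (c2 k)) D := by
    unfold hat
    rw [sum_comm]
    apply sum_congr rfl
    intro e _
    rw [hdl, sum_div]
  refine ⟨th, dl, ⟨?_, ?_⟩, ⟨?_, ?_⟩, ?_, ?_, ?_⟩
  · intro e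
    exact (co_abs hG1 (fun i U => by rw [abs_neg_one_pow]) e).trans hU1
  · intro e he
    exact co_DW hG1 (fun i U hU => (hF1s i U hU).trans (hsubP i)) hD1 he
  · intro e
    refine (abs_sum_le_sum_abs _ _).trans ?_
    refine (sum_le_sum (fun k _ => co_abs (hG2 k) (c := c2 k) (fun i U => ?_) e)).trans ?_
    · simp only [hc2]; split_ifs <;> simp
    · rw [sum_const, card_univ, Fintype.card_fin, nsmul_eq_mul, mul_one]; exact hUJ
  · intro e he
    obtain ⟨k, _, hk⟩ := exists_ne_zero_of_sum_ne_zero he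
    exact co_DW (hG2 k) (fun i U hU => (hF2s k i U hU).trans (hsubP i)) (hD2 k) hk
  · intro m
    set x : Fin J → ℝ := fun i => if ∀ l ∈ Pb P i, ¬ l ∣ m.natAbs then (1 : ℝ) else 0 with hx
    set y : Fin J → ℝ := fun i => ∑ U ∈ (Pb P i).powerset.filter (fun U => U.card ≤ bb b0 i),
        if ∀ l ∈ U, l ∣ m.natAbs then ((-1 : ℝ)) ^ U.card else 0 with hy
    set e : Fin J → ℝ := fun i => ∑ U ∈ powersetCard (bb b0 i + 1) (Pb P i),
        if ∀ l ∈ U, l ∣ m.natAbs then (1 : ℝ) else 0 with he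
    have hloc : ∀ i, 0 ≤ x i ∧ x i ≤ y i ∧ y i - x i ≤ e i := fun i =>
      bh_local (Pb P i) (bb b0 i) (hbe i) m.natAbs
    have hxx : xx P m = ∏ i, x i := xx_eq P hP m
    have hEv1 : Ev th D m = ∏ i, y i := Ev_co hG1 hD1 m
    have hEv2 : ∀ k, Ev (co (F2 k) (c2 k)) D m = e k * ∏ i ∈ univ.erase k, y i := by
      intro k
      rw [Ev_co (hG2 k) (hD2 k) m, ← hpi k e y]
      apply prod_congr rfl
      intro i _
      by_cases hik : i = k
      · simp only [hF2, hc2, if_pos hik, he]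
      · simp only [hF2, hc2, if_neg hik, hy]
    rw [hxx, hEv1, hEvdl]
    refine ⟨prod_le_prod (fun i _ => (hloc i).1) (fun i _ => (hloc i).2.1), ?_⟩
    refine (bh_prod_sub univ x y e (fun i => (hloc i).1) (fun i => (hloc i).2.1)
        (fun i => (hloc i).2.2)).trans (le_of_eq ?_)
    exact sum_congr rfl fun k _ => (hEv2 k).symm
  · rw [hth, hat_co hG1 hD1]
    rfl
  · rw [hhatdl]
    apply sum_congr rfl
    intro k _
    rw [hat_co (hG2 k) (hD2 k), ← hpi k (fun i => bhE gg (bb b0 i + 1) (Pb P i))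
      (fun i => bhA gg (bb b0 i) (Pb P i))]
    apply prod_congr rfl
    intro i _
    by_cases hik : i = k
    · simp only [hF2, hc2, if_pos hik, one_mul, bhE, gg]
    · simp only [hF2, hc2, if_neg hik, bhA, gg]

end Pool.Agent.U690.PL
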